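import Pool.Agent.Helper70.KN.Goals2

/-!
# The slice inequality for wide diagrams (packet SLW of project KN, after Helper67/KN/SL.lean)
-/

set_option autoImplicit false

open MeasureTheory Set

namespace Pool.Agent.Helper89.KN.SLW

open Pool.Agent.Helper70.KN

/-- The inclusion of the proof. -/
lemma incl {N : ℕ} {V : Finset (Fin N → ℕ)} {c : ℝ} (hT : Wide V c)
    (J : Finset (Fin N)) (i : Fin N) (hi : i ∉ J) (s t : ℝ) (ht0 : 0 ≤ t) (hts : t < s)
    (htc : t < c) (D : Fin N → ℝ) (hD : ∀ k, D k = if k ∈ insert i J then 1 else 1 - t / c)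
    (x : Fin N → ℝ) (hx : x ∈ cyl V (insert i J)) :
    0 ≤ D i * x i ∧ D i * x i < 1 ∧
      Function.update (fun k => D k * x k) i t ∈ cyl V J ∩ {x | x i < s} := by
  have hc : 0 < c := hT.2.1
  have hl : 0 < 1 - t / c := by
    rw [sub_pos, div_lt_one hc]
    exact htc
  obtain ⟨h0, h1, h2⟩ := hx
  have hDi : D i = 1 := by
    rw [hD, if_pos (Finset.mem_insert_self i J)]
  have hDp : ∀ k, 0 < D k := by
    intro k
    rw [hD]
    split_ifs
    · exact one_pos
    · exact hl
  refine ⟨?_, ?_, ⟨?_, ?_, ?_⟩, ?_⟩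
  · exact mul_nonneg (hDp i).le (h0 i)
  · rw [hDi, one_mul]
    exact h1 i (Finset.mem_insert_self i J)
  · intro k
    by_cases hk : k = i
    · subst hk
      rw [Function.update_self]
      exact ht0
    · rw [Function.update_of_ne hk]
      exact mul_nonneg (hDp k).le (h0 k)
  · intro j hj
    have hji : j ≠ i := fun h => hi (h ▸ hj)
    rw [Function.update_of_ne hji]
    have hDj : D j = 1 := by
      rw [hD, if_pos (Finset.mem_insert_of_mem hj)]
    change D j * x j < 1
    rw [hDj, one_mul]
    exact h1 j (Finset.mem_insert_of_mem hj)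
  · intro hw
    apply h2
    have hwi : zr J (Function.update (fun k => D k * x k) i t) i = t := by
      unfold zr
      rw [if_neg hi, Function.update_self]
    have h3 := hT.2.2.2 _ i hw (by rw [hwi]; exact ht0) (by rw [hwi]; exact htc)
    rw [hwi] at h3
    convert h3 using 1
    funext k
    by_cases hk : k = i
    · subst hk
      simp [zr]
    · rw [if_neg hk]
      unfold zr
      by_cases hkJ : k ∈ J
      · rw [if_pos hkJ, if_pos (Finset.mem_insert_of_mem hkJ), zero_div]
      · have hkn : k ∉ insert i J := by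
          rw [Finset.mem_insert, not_or]
          exact ⟨hk, hkJ⟩
        rw [if_neg hkJ, if_neg hkn, Function.update_of_ne hk]
        change x k = D k * x k / (1 - t / c)
        rw [hD k, if_neg hkn, mul_div_assoc, mul_comm, div_mul_cancel₀ _ hl.ne']
  · change Function.update (fun k => D k * x k) i t i < s
    rw [Function.update_self]
    exact hts

theorem t (hMF : S_MF) (hSI : S_SI) (hSC : S_SC) : S_SLW := by
  intro N V c hT i s hs0 hsc
  set J : Finset (Fin N) := ∅ with hJ
  have hi : i ∉ J := Finset.notMem_empty i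
  have hins : ({i} : Finset (Fin N)) = insert i J := rfl
  have hNJ : N - 1 = N - J.card - 1 := by rw [hJ, Finset.card_empty, Nat.sub_zero]
  rw [hins, hNJ]
  have hc : 0 < c := hT.2.1
  obtain ⟨hm, hfin, -⟩ := hMF N V hT.1 J
  obtain ⟨hm', hfin', -⟩ := hMF N V hT.1 (insert i J)
  set S : Set (Fin N → ℝ) := cyl V J ∩ {x | x i < s} with hS
  have hSm : MeasurableSet S := hm.inter (measurableSet_lt (measurable_pi_apply i) measurable_const)
  have hSfin : volume S ≠ ⊤ := ne_top_of_le_ne_top hfin (measure_mono inter_subset_left)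
  set κ := N - J.card - 1 with hκ
  have slice : ∀ t : ℝ, 0 < t → t < s →
      ENNReal.ofReal ((1 - t / c) ^ κ) * volume (cyl V (insert i J)) ≤
        volume {x : Fin N → ℝ | 0 ≤ x i ∧ x i < 1 ∧ Function.update x i t ∈ S} := by
    intro t ht0 hts
    have htc : t < c := lt_of_lt_of_le hts hsc
    have hl : 0 < 1 - t / c := by
      rw [sub_pos, div_lt_one hc]
      exact htc
    let D : Fin N → ℝ := fun k => if k ∈ insert i J then 1 else 1 - t / c
    have hDp : ∀ k, 0 < D k := by
      intro k
      simp only [D]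
      split_ifs
      · exact one_pos
      · exact hl
    have hprod : ∏ k, D k = (1 - t / c) ^ κ := by
      simp only [D]
      rw [Finset.prod_ite, Finset.prod_const_one, one_mul, Finset.prod_const]
      congr 1
      have : Finset.univ.filter (fun k => k ∉ insert i J) = (insert i J)ᶜ := by
        ext k
        simp
      rw [this, Finset.card_compl, Fintype.card_fin, Finset.card_insert_of_notMem hi]
      omega
    have hupd : Measurable fun x : Fin N → ℝ => Function.update x i t := by
      rw [measurable_pi_iff]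
      intro k
      by_cases hk : k = i
      · subst hk
        simp only [Function.update_self]
        exact measurable_const
      · simp only [Function.update_of_ne hk]
        exact measurable_pi_apply k
    have hRm : MeasurableSet {x : Fin N → ℝ | 0 ≤ x i ∧ x i < 1 ∧ Function.update x i t ∈ S} :=
      (measurableSet_le measurable_const (measurable_pi_apply i)).inter
        ((measurableSet_lt (measurable_pi_apply i) measurable_const).inter (hupd hSm))
    rw [hSC N _ D hRm hDp, hprod]
    gcongr
    intro x hx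
    exact incl hT J i hi s t ht0.le hts htc D (fun k => rfl) x hx
  have hcont : Continuous fun t : ℝ => (1 - t / c) ^ κ := by fun_prop
  have hint : IntegrableOn (fun t : ℝ => (1 - t / c) ^ κ) (Ioo 0 s) :=
    (hcont.integrableOn_Icc (a := 0) (b := s)).mono_set Ioo_subset_Icc_self
  have hnn : ∀ t ∈ Ioo (0 : ℝ) s, 0 ≤ (1 - t / c) ^ κ := by
    intro t ht
    apply pow_nonneg
    rw [sub_nonneg, div_le_one hc]
    exact (lt_of_lt_of_le ht.2 hsc).le
  have hI : ∫ t in (0 : ℝ)..s, (1 - t / c) ^ κ = ∫ t in Ioo (0 : ℝ) s, (1 - t / c) ^ κ := by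
    rw [intervalIntegral.integral_of_le hs0, integral_Ioc_eq_integral_Ioo]
  have hI0 : 0 ≤ ∫ t in Ioo (0 : ℝ) s, (1 - t / c) ^ κ :=
    setIntegral_nonneg measurableSet_Ioo hnn
  have hle : ENNReal.ofReal (∫ t in Ioo (0 : ℝ) s, (1 - t / c) ^ κ) *
      volume (cyl V (insert i J)) ≤ volume S := by
    rw [ofReal_integral_eq_lintegral_ofReal hint
      ((ae_restrict_iff' measurableSet_Ioo).mpr (Filter.Eventually.of_forall hnn))]
    rw [← lintegral_mul_const _ (hcont.measurable.ennreal_ofReal)]
    rw [hSI N S i hSm]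
    calc ∫⁻ t in Ioo (0 : ℝ) s, ENNReal.ofReal ((1 - t / c) ^ κ) * volume (cyl V (insert i J))
        ≤ ∫⁻ t in Ioo (0 : ℝ) s,
            volume {x : Fin N → ℝ | 0 ≤ x i ∧ x i < 1 ∧ Function.update x i t ∈ S} :=
          setLIntegral_mono' measurableSet_Ioo fun t ht => slice t ht.1 ht.2
      _ ≤ ∫⁻ t : ℝ, volume {x : Fin N → ℝ | 0 ≤ x i ∧ x i < 1 ∧ Function.update x i t ∈ S} :=
          setLIntegral_le_lintegral _ _
  rw [hI]
  have h5 := ENNReal.toReal_mono hSfin hle
  rw [ENNReal.toReal_mul, ENNReal.toReal_ofReal hI0] at h5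
  exact h5

end Pool.Agent.Helper89.KN.SLW
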