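import Pool.Agent.Helper70.KN.Goals4
import Pool.Agent.Helper59.KN.XX2

/-!
# Project KN, part 4, packet XX4
-/

open MeasureTheory Set

namespace Pool.Agent.Helper89.KN.XX4

open Pool.Agent.Helper70.KN

theorem cc (hMF : S_MF) (hSHS : S_SHS4) (N : ℕ) (V : Finset (Fin N → ℕ)) (L : Set (Fin N → ℝ)) (ω η : ℝ)
    (hC : Cut V L ω) (hη : 0 < η) (J : Finset (Fin N)) (hJ : ∀ w ∈ L, ∑ j ∈ Jᶜ, w j ≤ η) :
    ∑ j ∈ Jᶜ, W V (insert j J) ≤ η * ((N : ℝ) - J.card) * W V J := by
  have hconv : Convenient V := hC.1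
  obtain ⟨hmeas, hfin, -⟩ := hMF N V hconv J
  set P : Fin N → Set (Fin N → ℝ) :=
    fun j => {x | x ∈ cyl V J ∧ ∀ k, k ∉ J → k ≠ j → x j < x k} with hP
  have hsub : ∀ j, P j ⊆ cyl V J := fun j x hx => hx.1
  have hPm : ∀ j, MeasurableSet (P j) := by
    intro j
    have h1 : P j = cyl V J ∩ ⋂ k : Fin N, {x | k ∉ J → k ≠ j → x j < x k} := by
      ext x
      simp only [hP, mem_setOf_eq, mem_inter_iff, mem_iInter]
    rw [h1]
    refine hmeas.inter (MeasurableSet.iInter fun k => ?_)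
    by_cases hk : k ∉ J ∧ k ≠ j
    · have h2 : {x : Fin N → ℝ | k ∉ J → k ≠ j → x j < x k} = {x | x j < x k} := by
        ext x
        simp only [mem_setOf_eq]
        exact ⟨fun h => h hk.1 hk.2, fun h _ _ => h⟩
      rw [h2]
      exact measurableSet_lt (measurable_pi_apply j) (measurable_pi_apply k)
    · have h2 : {x : Fin N → ℝ | k ∉ J → k ≠ j → x j < x k} = univ := by
        ext x
        simp only [mem_setOf_eq, mem_univ, iff_true]
        exact fun h3 h4 => absurd ⟨h3, h4⟩ hk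
      rw [h2]
      exact MeasurableSet.univ
  have hPfin : ∀ j, volume (P j) ≠ ⊤ := fun j => ne_top_of_le_ne_top hfin (measure_mono (hsub j))
  have hdisj : (↑(Jᶜ) : Set (Fin N)).PairwiseDisjoint P := by
    intro i hi j hj hij
    have hi' : i ∉ J := by simpa using hi
    have hj' : j ∉ J := by simpa using hj
    refine Set.disjoint_left.2 fun x hx hy => ?_
    exact lt_asymm (hx.2 j hj' hij.symm) (hy.2 i hi' hij)
  have hsum : ∑ j ∈ Jᶜ, (volume (P j)).toReal ≤ W V J := by
    have h1 : volume.real (⋃ j ∈ Jᶜ, P j) = ∑ j ∈ Jᶜ, volume.real (P j) :=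
      measureReal_biUnion_finset hdisj (fun j _ => hPm j) (fun j _ => hPfin j)
    have h2 : volume.real (⋃ j ∈ Jᶜ, P j) ≤ volume.real (cyl V J) :=
      measureReal_mono (iUnion₂_subset fun j _ => hsub j) hfin
    rw [h1] at h2
    exact h2
  have hN : (0 : ℝ) ≤ (N : ℝ) - J.card := by
    have : J.card ≤ N := by
      simpa using Finset.card_le_univ J
    have h3 : (J.card : ℝ) ≤ N := by exact_mod_cast this
    linarith
  calc ∑ j ∈ Jᶜ, W V (insert j J)
      ≤ ∑ j ∈ Jᶜ, η * ((N : ℝ) - J.card) * (volume (P j)).toReal := by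
        refine Finset.sum_le_sum fun j hj => ?_
        exact hSHS N V L ω hC J η j hη hJ (by simpa using hj)
    _ = η * ((N : ℝ) - J.card) * ∑ j ∈ Jᶜ, (volume (P j)).toReal := by
        rw [Finset.mul_sum]
    _ ≤ η * ((N : ℝ) - J.card) * W V J :=
        mul_le_mul_of_nonneg_left hsum (mul_nonneg hη.le hN)

theorem t (hMF : S_MF) (hSHS : S_SHS4) : S_XX4 := by
  intro N V L ω η hC hη k hk hw
  have hkN : (k : ℝ) < N := by exact_mod_cast hk
  have hd := Pool.Agent.Helper59.KN.XX2.double (W V) k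
  have h1 : ((k : ℝ) + 1) * X V (k + 1) ≤ η * ((N : ℝ) - k) * X V k := by
    unfold X
    rw [hd, Finset.mul_sum]
    refine Finset.sum_le_sum fun J hJ => ?_
    have hJc := (Finset.mem_powersetCard.1 hJ).2
    have := cc hMF hSHS N V L ω η hC hη J (fun w h => hw w h J hJc)
    rwa [hJc] at this
  have hf : ((N - k).factorial : ℝ) = ((N : ℝ) - k) * ((N - (k + 1)).factorial : ℝ) := by
    have h3 : N - k = (N - (k + 1)) + 1 := by omega
    rw [h3, Nat.factorial_succ]
    push_cast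
    have h4 : ((N - (k + 1) : ℕ) : ℝ) = (N : ℝ) - (k + 1) := by
      rw [Nat.cast_sub hk]
      push_cast
      rfl
    rw [h4]
    ring
  have hpos : (0 : ℝ) ≤ ((N - (k + 1)).factorial : ℝ) := by positivity
  have h5 := mul_le_mul_of_nonneg_left h1 hpos
  unfold T
  rw [hf]
  calc ((k : ℝ) + 1) * (((N - (k + 1)).factorial : ℝ) * X V (k + 1))
      = ((N - (k + 1)).factorial : ℝ) * (((k : ℝ) + 1) * X V (k + 1)) := by ring
    _ ≤ ((N - (k + 1)).factorial : ℝ) * (η * ((N : ℝ) - k) * X V k) := h5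
    _ = η * (((N : ℝ) - k) * ((N - (k + 1)).factorial : ℝ) * X V k) := by ring

end Pool.Agent.Helper89.KN.XX4
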